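import Pool.Agent.helper62.RP.Spec

set_option autoImplicit false
set_option linter.constructorNameAsVariable false
set_option linter.unusedVariables false
set_option maxRecDepth 100000

/-! # Row rp:TRA: a group algebra element which detects transitivity -/

open Polynomial Filter
open Pool.Agent.QU

namespace Pool.Agent.RP

/-- positive words -/
def TRA_wd (k : ℕ) (t : Fin k → Fin 2) : F2 :=
  FreeGroup.mk (List.ofFn (fun i => ((t i, true) : Fin 2 × Bool)))

theorem TRA_red (k : ℕ) (t : Fin k → Fin 2) :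
    FreeGroup.IsReduced (List.ofFn (fun i => ((t i, true) : Fin 2 × Bool))) := by
  apply List.Pairwise.isChain
  apply List.pairwise_of_forall_mem_list
  intro a ha b hb _
  rw [List.mem_ofFn] at ha hb
  obtain ⟨i, rfl⟩ := ha
  obtain ⟨j, rfl⟩ := hb
  rfl

theorem TRA_inj (k : ℕ) : Function.Injective (TRA_wd k) := by
  intro t t' h
  have h1 := congrArg FreeGroup.toWord h
  unfold TRA_wd at h1
  rw [FreeGroup.toWord_mk, FreeGroup.toWord_mk, (TRA_red k t).reduce_eq,
    (TRA_red k t').reduce_eq] at h1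
  have h2 := List.ofFn_injective h1
  funext i
  have h3 := congrFun h2 i
  exact congrArg Prod.fst h3

/-- set of positive words -/
def TRA_T (k : ℕ) : Finset F2 := Finset.univ.image (TRA_wd k)

theorem TRA_card (k : ℕ) : (TRA_T k).card = 2 ^ k := by
  unfold TRA_T
  rw [Finset.card_image_of_injective _ (TRA_inj k), Finset.card_univ, Fintype.card_fun,
    Fintype.card_fin, Fintype.card_fin]

/-- sum of the positive words -/
noncomputable def TRA_f (k : ℕ) : MonoidAlgebra ℂ F2 :=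
  ∑ γ ∈ TRA_T k, MonoidAlgebra.single γ 1

theorem TRA_coeff (k : ℕ) (γ : F2) : (TRA_f k).coeff γ = if γ ∈ TRA_T k then 1 else 0 := by
  unfold TRA_f
  rw [MonoidAlgebra.coeff_sum, Finsupp.finsetSum_apply]
  have : ∀ x ∈ TRA_T k, (MonoidAlgebra.single x (1 : ℂ)).coeff γ = if x = γ then 1 else 0 := by
    intro x _
    rw [MonoidAlgebra.coeff_single, Finsupp.single_apply]
  rw [Finset.sum_congr rfl this, Finset.sum_ite_eq' (TRA_T k) γ]

theorem TRA_supp (k : ℕ) : (TRA_f k).coeff.support = TRA_T k := by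
  ext γ
  rw [Finsupp.mem_support_iff, TRA_coeff]
  by_cases h : γ ∈ TRA_T k
  · simp [h]
  · simp [h]

theorem TRA_l2 (k : ℕ) : l2 (TRA_f k) = Real.sqrt (2 ^ k) := by
  unfold l2
  rw [TRA_supp]
  congr 1
  have : ∀ γ ∈ TRA_T k, ‖(TRA_f k).coeff γ‖ ^ 2 = (1 : ℝ) := by
    intro γ hγ
    rw [TRA_coeff, if_pos hγ, norm_one, one_pow]
  rw [Finset.sum_congr rfl this, Finset.sum_const, TRA_card, nsmul_eq_mul, mul_one]
  push_cast
  rfl

theorem TRA_rep (k : ℕ) (V : Type) [NormedAddCommGroup V] [InnerProductSpace ℂ V]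
    (ρ : F2 →* (V ≃ₗᵢ[ℂ] V)) (v : V) (hv : ∀ γ, ρ γ v = v) :
    rep ρ (TRA_f k) v = ((2 : ℂ) ^ k) • v := by
  unfold rep
  rw [TRA_supp, _root_.sum_apply]
  have : ∀ γ ∈ TRA_T k, ((TRA_f k).coeff γ •
      ((ρ γ).toLinearIsometry.toContinuousLinearMap : V →L[ℂ] V)) v = v := by
    intro γ hγ
    rw [TRA_coeff, if_pos hγ, one_smul]
    exact hv γ
  rw [Finset.sum_congr rfl this, Finset.sum_const, TRA_card, ← Nat.cast_smul_eq_nsmul ℂ]
  push_cast
  rfl

theorem TRA (h1 : RNB_stmt) (h2 : PUS_stmt) (h3 : REP_stmt) (h4 : SUB_stmt) (h5 : HAA_stmt) :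
    TRA_stmt := by
  intro G _ s hs
  have hreg : regNorm (push s (TRA_f 20)) ≤ 451584 := by
    have a1 := h4 G F2 s hs (TRA_f 20)
    have a2 := h5 (TRA_f 20) 20 (by
      intro γ hγ
      rw [TRA_supp] at hγ
      unfold TRA_T at hγ
      obtain ⟨t, _, rfl⟩ := Finset.mem_image.1 hγ
      unfold TRA_wd
      refine FreeGroup.norm_mk_le.trans ?_
      rw [List.length_ofFn])
    rw [TRA_l2] at a2
    have a3 : Real.sqrt (2 ^ 20) = 1024 := by
      rw [show (2 : ℝ) ^ 20 = 1024 ^ 2 by norm_num]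
      exact Real.sqrt_sq (by norm_num)
    rw [a3] at a2
    have a4 : (((20 : ℕ) : ℝ) + 1) ^ 2 * 1024 = 451584 := by norm_num
    rw [a4] at a2
    exact a1.trans a2
  refine ⟨push s (TRA_f 20), 1000, by norm_num, ?_⟩
  intro N σ hσ i j
  by_contra hne
  push Not at hne
  classical
  set O : Finset (Fin N) := Finset.univ.filter (fun x => ∃ γ, σ γ i = x) with hO
  have hiO : i ∈ O := by
    rw [hO, Finset.mem_filter]
    exact ⟨Finset.mem_univ _, 1, by rw [map_one]; rfl⟩
  have hjO : j ∉ O := by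
    rw [hO, Finset.mem_filter]
    rintro ⟨_, γ, hγ⟩
    exact hne γ hγ
  have hinv : ∀ γ x, (σ γ) x ∈ O ↔ x ∈ O := by
    intro γ x
    rw [hO, Finset.mem_filter, Finset.mem_filter]
    constructor
    · rintro ⟨_, δ, hδ⟩
      refine ⟨Finset.mem_univ _, γ⁻¹ * δ, ?_⟩
      rw [map_mul, Equiv.Perm.mul_apply, hδ, ← Equiv.Perm.mul_apply, ← map_mul, inv_mul_cancel,
        map_one, Equiv.Perm.one_apply]
    · rintro ⟨_, δ, hδ⟩
      refine ⟨Finset.mem_univ _, γ * δ, ?_⟩
      rw [map_mul, Equiv.Perm.mul_apply, hδ]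
  set v : EuclideanSpace ℂ (Fin N) := WithLp.toLp 2
    (fun x => if x ∈ O then ((N : ℂ) - (O.card : ℂ)) else -(O.card : ℂ)) with hv
  have hvx : ∀ x, v x = if x ∈ O then ((N : ℂ) - (O.card : ℂ)) else -(O.card : ℂ) := fun x => rfl
  have hsum : ∑ x, v x = 0 := by
    simp only [hvx]
    rw [Finset.sum_ite, Finset.sum_const, Finset.sum_const]
    have e1 : (Finset.univ.filter (fun x => x ∈ O)).card = O.card := by
      congr 1
      ext x
      simp
    have e2 : (Finset.univ.filter (fun x => x ∉ O)).card = N - O.card := by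
      have : Finset.univ.filter (fun x => x ∉ O) = Oᶜ := by
        ext x
        simp
      rw [this, Finset.card_compl, Fintype.card_fin]
    rw [e1, e2, nsmul_eq_mul, nsmul_eq_mul, Nat.cast_sub (by
      have := Finset.card_le_univ O
      rwa [Fintype.card_fin] at this)]
    ring
  have hfix : ∀ γ, permRep σ γ v = v := by
    intro γ
    ext x
    have : (permRep σ γ v) x = v ((σ γ)⁻¹ x) := rfl
    rw [this, hvx, hvx]
    have h6 : (σ γ)⁻¹ x ∈ O ↔ x ∈ O := by
      rw [← map_inv]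
      exact hinv γ⁻¹ x
    simp only [h6]
  have hv0 : 0 < ‖v‖ := by
    rw [norm_pos_iff]
    intro h6
    have h7 : v j = 0 := by rw [h6]; rfl
    rw [hvx, if_neg hjO, neg_eq_zero, Nat.cast_eq_zero, Finset.card_eq_zero] at h7
    rw [h7] at hiO
    exact Finset.notMem_empty _ hiO
  have hrep : rep (permRep σ) (push s (TRA_f 20)) v = ((2 : ℂ) ^ 20) • v := by
    have h6 := ((h2 F2 G s (TRA_f 20) (TRA_f 20)).2.2.2.2.2.2.1 (EuclideanSpace ℂ (Fin N))
      (permRep σ))
    rw [← h6]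
    apply TRA_rep
    intro γ
    exact hfix (s γ)
  have h6 := hσ v hsum
  rw [hrep, norm_smul] at h6
  have h7 : ‖(2 : ℂ) ^ 20‖ = 1048576 := by
    rw [norm_pow, Complex.norm_ofNat]
    norm_num
  rw [h7] at h6
  have h8 : (1048576 : ℝ) ≤ regNorm (push s (TRA_f 20)) + 1000 :=
    le_of_mul_le_mul_right h6 hv0
  linarith

end Pool.Agent.RP
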